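import Pool.Agent.Helper25_EVF.LINb

/-! EVF, row LIN: values which are a fixed number times a power, in a lattice. -/

set_option autoImplicit false

namespace Pool.Agent.EVF.H25

open MvPolynomial

theorem line_cnt (hsep : SepStmt) (hpwr : RAD.PwrStmt) (hnct : RAD.NctStmt)
    (φ : MvPolynomial (Fin 2) ℤ) (s : ℕ) (hφ : φ.IsHomogeneous s) (hirr : Irreducible φ)
    (hs : 2 ≤ s) (η : ℝ) (hη0 : 0 < η) (hη1 : η < 1) :
    ∃ δ C : ℝ, 0 < δ ∧ δ < 1 ∧ 0 < C ∧ ∀ H : ℕ, 1 ≤ H → ∀ (e P : ℤ × ℤ) (L : ℕ) (b : ℤ) (k : ℕ),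
      (nr e : ℝ) ≤ (H : ℝ) ^ (1 - η / 2) → |P.1| ≤ (H : ℤ) → |P.2| ≤ (H : ℤ) →
      (H : ℝ) ^ (η / 2) ≤ L → L ≤ 2 * H → P.1 * e.2 - P.2 * e.1 ≠ 0 → b ≠ 0 → 2 ≤ k →
      k ≤ s + 1 →
      ({c : ℤ | |c| ≤ (L : ℤ) ∧ ∃ q : ℕ, 1 ≤ q ∧
        bv φ (P.1 + c * e.1) (P.2 + c * e.2) = b * (q : ℤ) ^ k}.ncard : ℝ) ≤
          C * (L : ℝ) ^ (1 - δ) := by
  obtain ⟨B, hB⟩ := exists_nat_ge (2 * ((s : ℝ) + 1) / η)
  obtain ⟨δ, C, hδ0, hδ1, hC, hcnt⟩ := cnt hpwr hnct s B (by omega)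
  set H1 : ℕ := (nm φ * 2 ^ s).toNat with hH1
  refine ⟨δ, C + (4 * H1 + 1), hδ0, hδ1, by positivity, ?_⟩
  intro H hH e P L b k he hP1 hP2 hL hL2 hdet hb hk2 hk
  have hHr : (1 : ℝ) ≤ H := by exact_mod_cast hH
  have hLr : (1 : ℝ) ≤ L := (Real.one_le_rpow hHr (by positivity)).trans hL
  have hLn : 1 ≤ L := by exact_mod_cast hLr
  have hp1 : 1 ≤ (L : ℝ) ^ (1 - δ) := Real.one_le_rpow hLr (by linarith)
  rcases lt_or_ge H H1 with hlt | hge
  · have h1 := box_ncard L (fun c => ∃ q : ℕ, 1 ≤ q ∧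
        bv φ (P.1 + c * e.1) (P.2 + c * e.2) = b * (q : ℤ) ^ k)
    have h2 : ({c : ℤ | |c| ≤ (L : ℤ) ∧ ∃ q : ℕ, 1 ≤ q ∧
        bv φ (P.1 + c * e.1) (P.2 + c * e.2) = b * (q : ℤ) ^ k}.ncard : ℝ) ≤ 2 * L + 1 := by
      exact_mod_cast h1
    have h3 : (L : ℝ) ≤ 2 * H := by exact_mod_cast hL2
    have h4 : (H : ℝ) ≤ H1 := by exact_mod_cast hlt.le
    calc _ ≤ (2 * L + 1 : ℝ) := h2
      _ ≤ (C + (4 * H1 + 1)) * 1 := by linarith
      _ ≤ _ := mul_le_mul_of_nonneg_left hp1 (by positivity)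
  · have hbv : bv φ e.1 e.2 ≠ 0 := by
      apply bv_ne_zero φ s hφ hirr hs
      rintro ⟨h1, h2⟩
      apply hdet
      rw [h1, h2]
      ring
    obtain ⟨R, hR1, hR2, hR3, hR4⟩ := hsep φ s hφ hirr (by omega) P.1 P.2 e.1 e.2 hdet hbv
    have hRR : R = Rp φ P.1 P.2 e.1 e.2 := by
      apply Polynomial.funext
      intro c
      rw [hR4, Rp_eval]
    have heH : (nr e : ℝ) ≤ H := by
      refine he.trans ?_
      calc (H : ℝ) ^ (1 - η / 2) ≤ (H : ℝ) ^ (1 : ℝ) :=
            Real.rpow_le_rpow_of_exponent_le hHr (by linarith)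
        _ = H := Real.rpow_one _
    have heH' : nr e ≤ H := by exact_mod_cast heH
    have he1 : |e.1| ≤ (H : ℤ) := by
      rw [Int.abs_eq_natAbs]
      unfold nr at heH'
      omega
    have he2 : |e.2| ≤ (H : ℤ) := by
      rw [Int.abs_eq_natAbs]
      unfold nr at heH'
      omega
    have hco : ∀ i, |R.coeff i| ≤ (L : ℤ) ^ B := by
      intro i
      rw [hRR]
      refine (Rp_coeff φ s hφ P.1 P.2 e.1 e.2 H hP1 hP2 he1 he2 i).trans ?_
      have h1 : nm φ * 2 ^ s ≤ (H : ℤ) := by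
        have := Int.self_le_toNat (nm φ * 2 ^ s)
        rw [← hH1] at this
        omega
      have h2 : nm φ * (2 * (H : ℤ)) ^ s ≤ (H : ℤ) ^ (s + 1) := by
        rw [mul_pow, ← mul_assoc, pow_succ, mul_comm ((H : ℤ) ^ s)]
        exact mul_le_mul_of_nonneg_right h1 (by positivity)
      refine h2.trans ?_
      have h3 : ((H : ℝ)) ^ (s + 1) ≤ (L : ℝ) ^ B := by
        calc ((H : ℝ)) ^ (s + 1) = (H : ℝ) ^ ((s + 1 : ℕ) : ℝ) := (Real.rpow_natCast _ _).symm
          _ ≤ (H : ℝ) ^ (η / 2 * B) := by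
            apply Real.rpow_le_rpow_of_exponent_le hHr
            rw [div_le_iff₀ hη0] at hB
            push_cast
            linarith
          _ = ((H : ℝ) ^ (η / 2)) ^ B := by
            rw [Real.rpow_mul (by linarith), Real.rpow_natCast]
          _ ≤ (L : ℝ) ^ B := pow_le_pow_left₀ (by positivity) hL B
      exact_mod_cast h3
    have h1 := hcnt L hLn R hR1 hco hR2 b k hb hk2 (by omega)
    have h2 : {c : ℤ | |c| ≤ (L : ℤ) ∧ ∃ q : ℕ, 1 ≤ q ∧
        bv φ (P.1 + c * e.1) (P.2 + c * e.2) = b * (q : ℤ) ^ k} =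
        {c : ℤ | |c| ≤ (L : ℤ) ∧ ∃ q : ℕ, 1 ≤ q ∧ R.eval c = b * (q : ℤ) ^ k} := by
      ext c
      simp only [Set.mem_ofPred_eq, hR4]
    rw [h2]
    refine h1.trans (mul_le_mul_of_nonneg_right ?_ (by positivity))
    have : (0 : ℝ) ≤ H1 := Nat.cast_nonneg _
    linarith

theorem card_I (T : ℕ) : ((Finset.Icc (-(T : ℤ)) T).erase 0).card = 2 * T := by
  rw [Finset.card_erase_of_mem (by rw [Finset.mem_Icc]; omega), Int.card_Icc]
  omega

theorem lin (hsep : SepStmt) (hpwr : RAD.PwrStmt) (hnct : RAD.NctStmt) : LinStmt := by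
  classical
  intro φ s hφ hirr hs η hη0 hη1
  obtain ⟨δ, C, hδ0, hδ1, hC, hcnt⟩ := line_cnt hsep hpwr hnct φ s hφ hirr hs η hη0 hη1
  refine ⟨8 * C + 2, η * δ / 2, by positivity, ?_⟩
  intro H hH w t c k hw hwH hc hk2 hk
  have hHr : (1 : ℝ) ≤ H := by exact_mod_cast hH
  have hH0 : (0 : ℝ) < H := by linarith
  have hw0 : (0 : ℝ) < w := by exact_mod_cast hw
  obtain ⟨e, he0, he1, he2, hmin⟩ := exists_min w t hw
  set M := nr e with hM
  have hM1 : 1 ≤ M := by
    rw [Nat.one_le_iff_ne_zero]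
    intro h0
    apply he0
    rw [hM] at h0
    unfold nr at h0
    exact Prod.ext (by simp only [Prod.fst_zero]; omega) (by simp only [Prod.snd_zero]; omega)
  have hM1r : (1 : ℝ) ≤ M := by exact_mod_cast hM1
  have hM0 : (0 : ℝ) < M := by linarith
  have hMH : (M : ℝ) ≤ (H : ℝ) ^ (1 - η / 2) := by
    have h1 : ((M : ℝ)) ^ 2 ≤ ((H : ℝ) ^ (1 - η / 2)) ^ 2 := by
      calc ((M : ℝ)) ^ 2 ≤ w := by exact_mod_cast he2
        _ ≤ (H : ℝ) ^ (2 - η) := hwH
        _ = ((H : ℝ) ^ (1 - η / 2)) ^ 2 := by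
          rw [← Real.rpow_natCast, ← Real.rpow_mul hH0.le]
          congr 1
          push_cast
          ring
    exact le_of_sq_le_sq h1 (by positivity)
  set L : ℕ := 2 * H / M with hL
  set T : ℕ := 2 * M * H / w with hT
  have hLle : (L : ℝ) ≤ 2 * H / M := by
    have := @Nat.cast_div_le ℝ _ _ _ (2 * H) M
    push_cast at this
    exact this
  have hTle : (T : ℝ) ≤ 2 * M * H / w := by
    have := @Nat.cast_div_le ℝ _ _ _ (2 * M * H) w
    push_cast at this
    exact this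
  have hLge : (H : ℝ) ^ (η / 2) ≤ L := by
    have h1 : (2 * (H : ℝ) / M) < L + 1 := by
      have h2 : 2 * H < M * (L + 1) := by
        have := Nat.lt_mul_div_succ (2 * H) hM1
        exact this
      rw [div_lt_iff₀ hM0]
      have h3 : ((2 * H : ℕ) : ℝ) < ((M * (L + 1) : ℕ) : ℝ) := by exact_mod_cast h2
      push_cast at h3
      linarith
    have h2 : 2 * (H : ℝ) ^ (η / 2) ≤ 2 * (H : ℝ) / M := by
      rw [le_div_iff₀ hM0]
      calc 2 * (H : ℝ) ^ (η / 2) * M ≤ 2 * (H : ℝ) ^ (η / 2) * (H : ℝ) ^ (1 - η / 2) :=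
            mul_le_mul_of_nonneg_left hMH (by positivity)
        _ = 2 * (H : ℝ) := by
          rw [mul_assoc, ← Real.rpow_add hH0]
          congr 1
          calc (H : ℝ) ^ (η / 2 + (1 - η / 2)) = (H : ℝ) ^ (1 : ℝ) := by
                congr 1
                ring
            _ = H := Real.rpow_one _
    have h3 : 1 ≤ (H : ℝ) ^ (η / 2) := Real.one_le_rpow hHr (by positivity)
    linarith
  have hL2H : L ≤ 2 * H := Nat.div_le_self _ _
  have hLr : (1 : ℝ) ≤ L := (Real.one_le_rpow hHr (by positivity)).trans hLge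
  have hL0 : (0 : ℝ) < L := by linarith
  set S : Set (ℤ × ℤ) := {x : ℤ × ℤ | x ∈ PB H ∧ (w : ℤ) ∣ x.1 - t * x.2 ∧
    ∃ q : ℕ, 1 ≤ q ∧ bv φ x.1 x.2 = c * (q : ℤ) ^ k} with hS
  set Sl : ℤ → Set (ℤ × ℤ) := fun l => {x | x ∈ S ∧ e.1 * x.2 - e.2 * x.1 = l * w} with hSl
  have hSlcard : ∀ l : ℤ, l ≠ 0 → ((Sl l).ncard : ℝ) ≤ C * (L : ℝ) ^ (1 - δ) := by
    intro l hl
    rcases Set.eq_empty_or_nonempty (Sl l) with h0 | ⟨P, hPS, hPl⟩
    · rw [h0, Set.ncard_empty, Nat.cast_zero]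
      positivity
    · obtain ⟨⟨hPc, hP1, hP2⟩, hPw, -⟩ := hPS
      set A : Set ℤ := {c' : ℤ | |c'| ≤ (L : ℤ) ∧ ∃ q : ℕ, 1 ≤ q ∧
        bv φ (P.1 + c' * e.1) (P.2 + c' * e.2) = c * (q : ℤ) ^ k} with hA
      have hsub : Sl l ⊆ (fun c' : ℤ => ((P.1 + c' * e.1, P.2 + c' * e.2) : ℤ × ℤ)) '' A := by
        rintro x ⟨⟨⟨hxc, hx1, hx2⟩, hxw, hxq⟩, hxl⟩
        have hv : (w : ℤ) ∣ (x.1 - P.1) - t * (x.2 - P.2) := by
          have : (x.1 - P.1) - t * (x.2 - P.2) = (x.1 - t * x.2) - (P.1 - t * P.2) := by ring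
          rw [this]
          exact dvd_sub hxw hPw
        have hp : e.1 * (x.2 - P.2) = e.2 * (x.1 - P.1) := by
          linear_combination hxl - hPl
        obtain ⟨c', h1, h2⟩ := on_line w t e he0 he1 hmin (x.1 - P.1, x.2 - P.2) hv hp
        simp only at h1 h2
        have hx1' : x.1 = P.1 + c' * e.1 := by linarith
        have hx2' : x.2 = P.2 + c' * e.2 := by linarith
        refine ⟨c', ⟨?_, ?_⟩, Prod.ext hx1'.symm hx2'.symm⟩
        · have h3 : c'.natAbs * M ≤ 2 * H := by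
            have h4 : c'.natAbs * e.1.natAbs ≤ 2 * H := by
              rw [← Int.natAbs_mul, ← h1]
              rw [abs_le] at hx1 hP1
              omega
            have h5 : c'.natAbs * e.2.natAbs ≤ 2 * H := by
              rw [← Int.natAbs_mul, ← h2]
              rw [abs_le] at hx2 hP2
              omega
            rw [hM]
            unfold nr
            rcases max_choice e.1.natAbs e.2.natAbs with h | h
            · rw [h]; exact h4
            · rw [h]; exact h5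
          have h4 : c'.natAbs ≤ L := (Nat.le_div_iff_mul_le hM1).mpr h3
          rw [Int.abs_eq_natAbs]
          exact_mod_cast h4
        · rw [← hx1', ← hx2']
          exact hxq
      have hAfin : A.Finite := box_finite L _
      have h1 : (Sl l).ncard ≤ A.ncard :=
        (Set.ncard_le_ncard hsub (hAfin.image _)).trans (Set.ncard_image_le hAfin)
      have h2 : (A.ncard : ℝ) ≤ C * (L : ℝ) ^ (1 - δ) := by
        refine hcnt H hH e P L c k hMH hP1 hP2 hLge hL2H ?_ hc hk2 hk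
        intro h0
        apply hl
        have h3 : l * (w : ℤ) = 0 := by
          rw [← hPl]
          linear_combination (-1 : ℤ) * h0
        rcases mul_eq_zero.mp h3 with h | h
        · exact h
        · exfalso
          have : w = 0 := by exact_mod_cast h
          omega
      calc ((Sl l).ncard : ℝ) ≤ (A.ncard : ℝ) := by exact_mod_cast h1
        _ ≤ _ := h2
  -- the decomposition
  set I : Finset ℤ := (Finset.Icc (-(T : ℤ)) T).erase 0 with hI
  have hIcard : I.card = 2 * T := card_I T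
  have hdec : S ⊆ ({e, -e} : Set (ℤ × ℤ)) ∪ ⋃ l ∈ I, Sl l := by
    intro x hx
    obtain ⟨⟨hxc, hx1, hx2⟩, hxw, hxq⟩ := id hx
    have hd : (w : ℤ) ∣ e.1 * x.2 - e.2 * x.1 := by
      have : e.1 * x.2 - e.2 * x.1 = (e.1 - t * e.2) * x.2 - e.2 * (x.1 - t * x.2) := by ring
      rw [this]
      exact dvd_sub (Dvd.dvd.mul_right he1 _) (Dvd.dvd.mul_left hxw _)
    obtain ⟨l, hl⟩ := hd
    by_cases hl0 : l = 0
    · left
      rw [hl0, mul_zero] at hl
      obtain ⟨c', h1, h2⟩ := on_line w t e he0 he1 hmin x hxw (by linarith)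
      have hu : IsUnit c' := by
        rw [h1, h2] at hxc
        exact hxc.isUnit_of_dvd' (Dvd.intro _ rfl) (Dvd.intro _ rfl)
      rcases Int.isUnit_iff.mp hu with h | h
      · left
        rw [h, one_mul] at h1 h2
        exact Prod.ext h1 h2
      · right
        rw [h] at h1 h2
        refine Prod.ext ?_ ?_
        · rw [h1]
          simp
        · rw [h2]
          simp
    · right
      rw [Set.mem_iUnion₂]
      refine ⟨l, ?_, hx, by rw [hl]; ring⟩
      rw [hI, Finset.mem_erase, Finset.mem_Icc]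
      refine ⟨hl0, ?_⟩
      have h1 : l.natAbs * w ≤ 2 * M * H := by
        have h2 : (l.natAbs * w : ℕ) = (e.1 * x.2 - e.2 * x.1).natAbs := by
          rw [hl, Int.natAbs_mul, Int.natAbs_natCast, mul_comm]
        rw [h2]
        have hx1n : x.1.natAbs ≤ H := by
          rw [Int.abs_eq_natAbs] at hx1
          exact_mod_cast hx1
        have hx2n : x.2.natAbs ≤ H := by
          rw [Int.abs_eq_natAbs] at hx2
          exact_mod_cast hx2
        have he1n : e.1.natAbs ≤ M := by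
          rw [hM]; unfold nr; exact le_max_left _ _
        have he2n : e.2.natAbs ≤ M := by
          rw [hM]; unfold nr; exact le_max_right _ _
        calc (e.1 * x.2 - e.2 * x.1).natAbs ≤ (e.1 * x.2).natAbs + (e.2 * x.1).natAbs :=
              Int.natAbs_sub_le _ _
          _ = e.1.natAbs * x.2.natAbs + e.2.natAbs * x.1.natAbs := by
            rw [Int.natAbs_mul, Int.natAbs_mul]
          _ ≤ M * H + M * H :=
            add_le_add (Nat.mul_le_mul he1n hx2n) (Nat.mul_le_mul he2n hx1n)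
          _ = 2 * M * H := by ring
      have h2 : l.natAbs ≤ T := (Nat.le_div_iff_mul_le hw).mpr h1
      omega
  have hbig : S.Finite := by
    refine ((Set.finite_Icc (-(H : ℤ)) H).prod (Set.finite_Icc (-(H : ℤ)) H)).subset ?_
    rintro x ⟨⟨-, hx1, hx2⟩, -⟩
    exact ⟨abs_le.mp hx1, abs_le.mp hx2⟩
  have hUfin : (({e, -e} : Set (ℤ × ℤ)) ∪ ⋃ l ∈ I, Sl l).Finite := by
    refine (Set.toFinite _).union ?_
    refine Set.Finite.biUnion I.finite_toSet fun l _ => ?_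
    exact hbig.subset fun x hx => hx.1
  have hcard : S.ncard ≤ 2 + ∑ l ∈ I, (Sl l).ncard := by
    refine (Set.ncard_le_ncard hdec hUfin).trans ((Set.ncard_union_le _ _).trans ?_)
    refine add_le_add ?_ (Finset.set_ncard_biUnion_le I Sl)
    refine (Set.ncard_insert_le _ _).trans ?_
    rw [Set.ncard_singleton]
  have hcardR : (S.ncard : ℝ) ≤ 2 + (2 * T) * (C * (L : ℝ) ^ (1 - δ)) := by
    have h1 : (S.ncard : ℝ) ≤ 2 + ∑ l ∈ I, ((Sl l).ncard : ℝ) := by exact_mod_cast hcard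
    refine h1.trans (add_le_add le_rfl ?_)
    calc ∑ l ∈ I, ((Sl l).ncard : ℝ) ≤ ∑ _l ∈ I, C * (L : ℝ) ^ (1 - δ) := by
          refine Finset.sum_le_sum fun l hl => hSlcard l ?_
          rw [hI, Finset.mem_erase] at hl
          exact hl.1
      _ = (2 * T) * (C * (L : ℝ) ^ (1 - δ)) := by
          rw [Finset.sum_const, hIcard, nsmul_eq_mul]
          push_cast
          ring
  have hLpow : (L : ℝ) ^ (1 - δ) ≤ 2 * H / M * (H : ℝ) ^ (-(η * δ / 2)) := by
    have h1 : (L : ℝ) ^ (1 - δ) = L * ((L : ℝ) ^ δ)⁻¹ := by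
      rw [Real.rpow_sub hL0, Real.rpow_one, div_eq_mul_inv]
    have h2 : (H : ℝ) ^ (η * δ / 2) ≤ (L : ℝ) ^ δ := by
      calc (H : ℝ) ^ (η * δ / 2) = ((H : ℝ) ^ (η / 2)) ^ δ := by
            rw [← Real.rpow_mul hH0.le]
            congr 1
            ring
        _ ≤ (L : ℝ) ^ δ := Real.rpow_le_rpow (by positivity) hLge hδ0.le
    rw [h1, Real.rpow_neg hH0.le]
    refine mul_le_mul hLle ?_ (by positivity) (by positivity)
    exact inv_anti₀ (by positivity) h2
  calc (S.ncard : ℝ) ≤ 2 + (2 * T) * (C * (L : ℝ) ^ (1 - δ)) := hcardR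
    _ ≤ 2 + (2 * (2 * M * H / w)) * (C * (2 * H / M * (H : ℝ) ^ (-(η * δ / 2)))) := by
      refine add_le_add le_rfl ?_
      refine mul_le_mul (mul_le_mul_of_nonneg_left hTle (by norm_num))
        (mul_le_mul_of_nonneg_left hLpow hC.le) (by positivity) (by positivity)
    _ = 2 + 8 * C * ((H : ℝ) ^ 2 / w * (H : ℝ) ^ (-(η * δ / 2))) := by
      field_simp
      ring
    _ ≤ (8 * C + 2) * ((H : ℝ) ^ 2 / w * (H : ℝ) ^ (-(η * δ / 2)) + 1) := by
      have h1 : 0 ≤ (H : ℝ) ^ 2 / w * (H : ℝ) ^ (-(η * δ / 2)) := by positivity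
      nlinarith

end Pool.Agent.EVF.H25
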