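import Pool.Agent.EVF.StmtsR

/-! EVF, row LIN, part 1: forms have no zeros, coefficients of a restriction. -/

set_option autoImplicit false

namespace Pool.Agent.EVF.H25

open MvPolynomial

theorem aeval_hom {S : Type} [CommRing S] [Algebra ℤ S] (φ : MvPolynomial (Fin 2) ℤ) (s : ℕ)
    (h : φ.IsHomogeneous s) (T : S) (x : Fin 2 → S) :
    aeval (fun i => x i * T) φ = T ^ s * aeval x φ := by
  rw [aeval_def, aeval_def, eval₂_eq', eval₂_eq', Finset.mul_sum]
  refine Finset.sum_congr rfl fun d hd => ?_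
  have hds : d.degree = s := by
    by_contra hne
    exact (MvPolynomial.mem_support_iff.mp hd) (h.coeff_eq_zero hne)
  have h1 : ∏ i, (x i * T) ^ d i = T ^ s * ∏ i, x i ^ d i := by
    simp only [mul_pow, Finset.prod_mul_distrib]
    rw [Finset.prod_pow_eq_pow_sum, ← hds, Finsupp.degree_eq_sum]
    ring
  rw [h1]
  ring

theorem bv_hom (φ : MvPolynomial (Fin 2) ℤ) (s : ℕ) (h : φ.IsHomogeneous s) (g a b : ℤ) :
    bv φ (a * g) (b * g) = g ^ s * bv φ a b := by
  have h1 := aeval_hom (S := ℤ) φ s h g ![a, b]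
  have h2 : (fun i => (![a, b] : Fin 2 → ℤ) i * g) = ![a * g, b * g] := by
    funext i
    fin_cases i <;> rfl
  rw [h2] at h1
  have h3 : ∀ x : Fin 2 → ℤ, aeval x φ = eval x φ := by
    intro x
    rw [MvPolynomial.aeval_def, MvPolynomial.eval₂_eq_eval_map]
    simp
  rw [h3, h3] at h1
  exact h1

theorem bv_ne_zero (φ : MvPolynomial (Fin 2) ℤ) (s : ℕ) (hφ : φ.IsHomogeneous s)
    (hirr : Irreducible φ) (hs : 2 ≤ s) (e f : ℤ) (hef : ¬ (e = 0 ∧ f = 0)) : bv φ e f ≠ 0 := by
  intro h0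
  have hg : 0 < Int.gcd e f := by
    rw [Nat.pos_iff_ne_zero]
    intro h
    exact hef (Int.gcd_eq_zero_iff.mp h)
  obtain ⟨g, e', f', hg0, hcop, rfl, rfl⟩ := Int.exists_gcd_one' hg
  rw [bv_hom φ s hφ] at h0
  have h1 : bv φ e' f' = 0 := by
    rcases mul_eq_zero.mp h0 with h | h
    · exact absurd (pow_eq_zero_iff (by omega) |>.mp h) (by exact_mod_cast hg0.ne')
    · exact h
  obtain ⟨u, v, huv⟩ : IsCoprime e' f' := Int.isCoprime_iff_gcd_eq_one.mpr hcop
  set ℓ : MvPolynomial (Fin 2) ℤ := C f' * X 0 - C e' * X 1 with hℓ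
  have hdvd : ℓ ∣ φ := by
    rw [← Ideal.mem_span_singleton, ← Ideal.Quotient.eq_zero_iff_mem]
    set Q := MvPolynomial (Fin 2) ℤ ⧸ Ideal.span {ℓ} with hQ
    let mk : MvPolynomial (Fin 2) ℤ →ₐ[ℤ] Q := Ideal.Quotient.mkₐ ℤ (Ideal.span {ℓ})
    have hmk : mk ℓ = 0 := by
      show Ideal.Quotient.mk (Ideal.span {ℓ}) ℓ = 0
      rw [Ideal.Quotient.eq_zero_iff_mem]
      exact Ideal.mem_span_singleton_self ℓ
    have huv' : (C u * C e' + C v * C f' : MvPolynomial (Fin 2) ℤ) = 1 := by
      rw [← C_mul, ← C_mul, ← C_add, huv, C_1]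
    have hx : (fun i => mk (X i)) = fun i =>
        (fun j => algebraMap ℤ Q ((![e', f'] : Fin 2 → ℤ) j)) i * mk (C u * X 0 + C v * X 1) := by
      funext i
      have halg : ∀ n : ℤ, algebraMap ℤ Q n = mk (C n) := by
        intro n
        exact (mk.commutes n).symm
      simp only [halg]
      rw [← map_mul]
      rw [← sub_eq_zero, ← map_sub]
      fin_cases i
      · have : (X 0 - C e' * (C u * X 0 + C v * X 1) : MvPolynomial (Fin 2) ℤ) = C v * ℓ := by
          rw [hℓ]
          linear_combination (-(X 0 : MvPolynomial (Fin 2) ℤ)) * huv'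
        show mk (X 0 - C e' * (C u * X 0 + C v * X 1)) = 0
        rw [this, map_mul, hmk, mul_zero]
      · have : (X 1 - C f' * (C u * X 0 + C v * X 1) : MvPolynomial (Fin 2) ℤ) = - C u * ℓ := by
          rw [hℓ]
          linear_combination (-(X 1 : MvPolynomial (Fin 2) ℤ)) * huv'
        show mk (X 1 - C f' * (C u * X 0 + C v * X 1)) = 0
        rw [this, map_mul, hmk, mul_zero]
    have h2 : mk φ = aeval (fun i => mk (X i)) φ := by
      have := MvPolynomial.aeval_unique mk
      conv_lhs => rw [this]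
      rfl
    show mk φ = 0
    rw [h2, hx, aeval_hom φ s hφ]
    have h3 : aeval (fun j => algebraMap ℤ Q ((![e', f'] : Fin 2 → ℤ) j)) φ =
        algebraMap ℤ Q (bv φ e' f') := by
      have := MvPolynomial.aeval_algebraMap_apply (A := ℤ) (B := Q) (![e', f'] : Fin 2 → ℤ) φ
      rw [Function.comp_def] at this
      rw [this]
      rfl
    rw [h3, h1, map_zero, mul_zero]
  have hℓ0 : ℓ ≠ 0 := fun h => hirr.ne_zero (by rw [h] at hdvd; exact zero_dvd_iff.mp hdvd)
  have hℓh : ℓ.IsHomogeneous 1 := by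
    refine MvPolynomial.IsHomogeneous.sub ?_ ?_
    · simpa using (isHomogeneous_C (Fin 2) f').mul (isHomogeneous_X ℤ (0 : Fin 2))
    · simpa using (isHomogeneous_C (Fin 2) e').mul (isHomogeneous_X ℤ (1 : Fin 2))
  have hℓd : ℓ.totalDegree = 1 := hℓh.totalDegree hℓ0
  have hφd : φ.totalDegree = s := hφ.totalDegree hirr.ne_zero
  obtain ⟨r, hr⟩ := hdvd
  have hr0 : r ≠ 0 := by
    rintro rfl
    rw [mul_zero] at hr
    exact hirr.ne_zero hr
  have hdeg : φ.totalDegree = ℓ.totalDegree + r.totalDegree := by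
    rw [hr]
    exact MvPolynomial.totalDegree_mul_of_isDomain hℓ0 hr0
  have hunit : ∀ q : MvPolynomial (Fin 2) ℤ, IsUnit q → q.totalDegree = 0 := by
    intro q hq
    obtain ⟨q', hq'⟩ := hq.exists_right_inv
    have hq0 : q ≠ 0 := hq.ne_zero
    have hq'0 : q' ≠ 0 := by
      rintro rfl
      rw [mul_zero] at hq'
      exact zero_ne_one hq'
    have := MvPolynomial.totalDegree_mul_of_isDomain hq0 hq'0
    rw [hq', MvPolynomial.totalDegree_one] at this
    omega
  rcases hirr.isUnit_or_isUnit hr with h | h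
  · have := hunit _ h
    omega
  · have := hunit _ h
    omega

/-! ### Majorants -/

/-- `Q` is a majorant of `P` -/
def Maj (P Q : Polynomial ℤ) : Prop := ∀ i, |P.coeff i| ≤ Q.coeff i

theorem Maj.nonneg {P Q : Polynomial ℤ} (h : Maj P Q) (i : ℕ) : 0 ≤ Q.coeff i :=
  (abs_nonneg _).trans (h i)

theorem Maj.add {P Q P' Q' : Polynomial ℤ} (h : Maj P Q) (h' : Maj P' Q') :
    Maj (P + P') (Q + Q') := by
  intro i
  rw [Polynomial.coeff_add, Polynomial.coeff_add]
  exact (abs_add_le _ _).trans (add_le_add (h i) (h' i))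

theorem Maj.mul {P Q P' Q' : Polynomial ℤ} (h : Maj P Q) (h' : Maj P' Q') :
    Maj (P * P') (Q * Q') := by
  intro i
  rw [Polynomial.coeff_mul, Polynomial.coeff_mul]
  refine (Finset.abs_sum_le_sum_abs _ _).trans (Finset.sum_le_sum fun x _ => ?_)
  rw [abs_mul]
  exact mul_le_mul (h _) (h' _) (abs_nonneg _) (h.nonneg _)

theorem Maj.const (a : ℤ) : Maj (Polynomial.C a) (Polynomial.C |a|) := by
  intro i
  rw [Polynomial.coeff_C, Polynomial.coeff_C]
  split_ifs
  · exact le_refl _
  · simp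

theorem Maj.X : Maj (Polynomial.X : Polynomial ℤ) Polynomial.X := by
  intro i
  rw [Polynomial.coeff_X]
  split_ifs <;> simp

theorem Maj.pow {P Q : Polynomial ℤ} (h : Maj P Q) (n : ℕ) : Maj (P ^ n) (Q ^ n) := by
  induction n with
  | zero =>
    rw [pow_zero, pow_zero]
    simpa using Maj.const 1
  | succ n ih =>
    rw [pow_succ, pow_succ]
    exact ih.mul h

theorem Maj.sum {ι : Type} (s : Finset ι) (P Q : ι → Polynomial ℤ) (h : ∀ i ∈ s, Maj (P i) (Q i)) :
    Maj (∑ i ∈ s, P i) (∑ i ∈ s, Q i) := by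
  classical
  induction s using Finset.induction_on with
  | empty =>
    rw [Finset.sum_empty, Finset.sum_empty]
    intro i
    simp
  | insert a s ha ih =>
    rw [Finset.sum_insert ha, Finset.sum_insert ha]
    exact (h a (Finset.mem_insert_self _ _)).add
      (ih fun i hi => h i (Finset.mem_insert_of_mem hi))

theorem Maj.le {P Q : Polynomial ℤ} (h : Maj P Q) (i : ℕ) : |P.coeff i| ≤ Q.eval 1 := by
  refine (h i).trans ?_
  rw [Polynomial.eval_eq_sum_range]
  simp only [one_pow, mul_one]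
  by_cases hi : i ∈ Finset.range (Q.natDegree + 1)
  · exact Finset.single_le_sum (f := fun j => Q.coeff j) (fun j _ => h.nonneg j) hi
  · rw [Finset.mem_range, not_lt] at hi
    rw [Polynomial.coeff_eq_zero_of_natDegree_lt (by omega)]
    exact Finset.sum_nonneg fun j _ => h.nonneg j

/-- the restriction of a form to a line -/
noncomputable def Rp (φ : MvPolynomial (Fin 2) ℤ) (a b e f : ℤ) : Polynomial ℤ :=
  aeval ![Polynomial.C a + Polynomial.C e * Polynomial.X,
    Polynomial.C b + Polynomial.C f * Polynomial.X] φ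

theorem Rp_eval (φ : MvPolynomial (Fin 2) ℤ) (a b e f c : ℤ) :
    (Rp φ a b e f).eval c = bv φ (a + c * e) (b + c * f) := by
  have h1 : (Rp φ a b e f).eval c = Polynomial.aeval c (Rp φ a b e f) := by
    rw [Polynomial.coe_aeval_eq_eval]
  rw [h1]
  unfold Rp
  rw [← AlgHom.comp_apply, MvPolynomial.comp_aeval]
  unfold bv
  have h2 : (fun i => (Polynomial.aeval c) ((![Polynomial.C a + Polynomial.C e * Polynomial.X,
      Polynomial.C b + Polynomial.C f * Polynomial.X] : Fin 2 → Polynomial ℤ) i)) =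
      ![a + c * e, b + c * f] := by
    funext i
    fin_cases i
    · simp [mul_comm]
    · simp [mul_comm]
  rw [h2, MvPolynomial.aeval_def, MvPolynomial.eval₂_eq_eval_map]
  simp

/-- the sum of the absolute values of the coefficients -/
noncomputable def nm (φ : MvPolynomial (Fin 2) ℤ) : ℤ := ∑ d ∈ φ.support, |φ.coeff d|

theorem nm_nonneg (φ : MvPolynomial (Fin 2) ℤ) : 0 ≤ nm φ :=
  Finset.sum_nonneg fun _ _ => abs_nonneg _

theorem Rp_coeff (φ : MvPolynomial (Fin 2) ℤ) (s : ℕ) (h : φ.IsHomogeneous s) (a b e f H : ℤ)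
    (ha : |a| ≤ H) (hb : |b| ≤ H) (he : |e| ≤ H) (hf : |f| ≤ H) (i : ℕ) :
    |(Rp φ a b e f).coeff i| ≤ nm φ * (2 * H) ^ s := by
  have hM : Maj (Rp φ a b e f) (∑ d ∈ φ.support, Polynomial.C |φ.coeff d| *
      ((Polynomial.C |a| + Polynomial.C |e| * Polynomial.X) ^ (d 0) *
        (Polynomial.C |b| + Polynomial.C |f| * Polynomial.X) ^ (d 1))) := by
    unfold Rp
    rw [aeval_def, eval₂_eq']
    refine Maj.sum _ _ _ fun d _ => ?_
    refine Maj.mul (Maj.const _) ?_
    rw [Fin.prod_univ_two]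
    refine Maj.mul (Maj.pow ?_ _) (Maj.pow ?_ _)
    · exact (Maj.const a).add ((Maj.const e).mul Maj.X)
    · exact (Maj.const b).add ((Maj.const f).mul Maj.X)
  refine (hM.le i).trans ?_
  rw [Polynomial.eval_finsetSum]
  unfold nm
  rw [Finset.sum_mul]
  refine Finset.sum_le_sum fun d hd => ?_
  have hds : d.degree = s := by
    by_contra hne
    exact (MvPolynomial.mem_support_iff.mp hd) (h.coeff_eq_zero hne)
  have hds2 : d 0 + d 1 = s := by
    rw [← hds, Finsupp.degree_eq_sum, Fin.sum_univ_two]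
  simp only [Polynomial.eval_mul, Polynomial.eval_C, Polynomial.eval_pow, Polynomial.eval_add,
    Polynomial.eval_X, mul_one]
  refine mul_le_mul_of_nonneg_left ?_ (abs_nonneg _)
  rw [← hds2, pow_add]
  have hH : 0 ≤ 2 * H := by linarith [abs_nonneg a]
  refine mul_le_mul (pow_le_pow_left₀ (by positivity) (by linarith) _)
    (pow_le_pow_left₀ (by positivity) (by linarith) _) (by positivity) (pow_nonneg hH _)

end Pool.Agent.EVF.H25
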