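import Pool.Agent.Helper25_EVF.LINa

/-! EVF, row LIN, part 2: short vectors, powers on a line. -/

set_option autoImplicit false

namespace Pool.Agent.EVF.H25

open MvPolynomial

/-- sup norm -/
def nr (x : ℤ × ℤ) : ℕ := max x.1.natAbs x.2.natAbs

theorem exists_short (w : ℕ) (t : ℤ) (hw : 1 ≤ w) :
    ∃ e : ℤ × ℤ, e ≠ 0 ∧ (w : ℤ) ∣ e.1 - t * e.2 ∧ nr e ^ 2 ≤ w := by
  classical
  have : NeZero w := ⟨by omega⟩
  set q := Nat.sqrt w with hq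
  have hcard : (Finset.univ : Finset (ZMod w)).card <
      ((Finset.range (q + 1)) ×ˢ (Finset.range (q + 1))).card := by
    rw [Finset.card_univ, ZMod.card, Finset.card_product, Finset.card_range]
    exact Nat.lt_succ_sqrt w
  obtain ⟨x, hx, y, hy, hxy, hf⟩ := Finset.exists_ne_map_eq_of_card_lt_of_maps_to hcard
    (f := fun x : ℕ × ℕ => ((x.1 : ZMod w) - (t : ZMod w) * (x.2 : ZMod w)))
    (fun _ _ => Finset.mem_univ _)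
  rw [Finset.mem_product, Finset.mem_range, Finset.mem_range] at hx hy
  refine ⟨((x.1 : ℤ) - y.1, (x.2 : ℤ) - y.2), ?_, ?_, ?_⟩
  · intro h
    apply hxy
    have h1 := congrArg Prod.fst h
    have h2 := congrArg Prod.snd h
    simp only [Prod.fst_zero, Prod.snd_zero] at h1 h2
    exact Prod.ext (by omega) (by omega)
  · rw [← ZMod.intCast_zmod_eq_zero_iff_dvd]
    push_cast
    have hf' : ((x.1 : ZMod w) - (t : ZMod w) * (x.2 : ZMod w)) =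
      ((y.1 : ZMod w) - (t : ZMod w) * (y.2 : ZMod w)) := hf
    linear_combination hf'
  · have h1 : nr ((x.1 : ℤ) - y.1, (x.2 : ℤ) - y.2) ≤ q := by
      unfold nr
      simp only
      omega
    calc nr ((x.1 : ℤ) - y.1, (x.2 : ℤ) - y.2) ^ 2 ≤ q ^ 2 := Nat.pow_le_pow_left h1 2
      _ ≤ w := by rw [sq]; exact Nat.sqrt_le w

theorem exists_min (w : ℕ) (t : ℤ) (hw : 1 ≤ w) :
    ∃ e : ℤ × ℤ, e ≠ 0 ∧ (w : ℤ) ∣ e.1 - t * e.2 ∧ nr e ^ 2 ≤ w ∧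
      ∀ f : ℤ × ℤ, f ≠ 0 → (w : ℤ) ∣ f.1 - t * f.2 → nr e ≤ nr f := by
  classical
  obtain ⟨e0, h0, h1, h2⟩ := exists_short w t hw
  have hex : ∃ n, ∃ e : ℤ × ℤ, e ≠ 0 ∧ (w : ℤ) ∣ e.1 - t * e.2 ∧ nr e = n :=
    ⟨_, e0, h0, h1, rfl⟩
  obtain ⟨e, he0, he1, he2⟩ := Nat.find_spec hex
  have hmin : ∀ f : ℤ × ℤ, f ≠ 0 → (w : ℤ) ∣ f.1 - t * f.2 → nr e ≤ nr f := by
    intro f hf hf'
    rw [he2]
    exact Nat.find_min' hex ⟨f, hf, hf', rfl⟩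
  exact ⟨e, he0, he1, (Nat.pow_le_pow_left (hmin e0 h0 h1) 2).trans h2, hmin⟩

theorem core (e1 e2 v1 v2 : ℤ) (h : e2.natAbs ≤ e1.natAbs) (h1 : e1 ≠ 0)
    (hp : e1 * v2 = e2 * v1) :
    ∃ c r1 r2 : ℤ, v1 = c * e1 + r1 ∧ v2 = c * e2 + r2 ∧ r1.natAbs < e1.natAbs ∧
      r2.natAbs < e1.natAbs := by
  have h2 := Int.emod_nonneg v1 h1
  have h3 := Int.emod_lt_abs v1 h1
  have h4 := Int.emod_add_mul_ediv v1 e1
  have h3' : (v1 % e1).natAbs < e1.natAbs := by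
    rw [Int.abs_eq_natAbs] at h3
    omega
  refine ⟨v1 / e1, v1 % e1, v2 - v1 / e1 * e2, by linarith, by ring, h3', ?_⟩
  have h5 : e1 * (v2 - v1 / e1 * e2) = e2 * (v1 % e1) := by
    linear_combination hp - e2 * h4
  have h6 : e1.natAbs * (v2 - v1 / e1 * e2).natAbs = e2.natAbs * (v1 % e1).natAbs := by
    rw [← Int.natAbs_mul, ← Int.natAbs_mul, h5]
  have h7 : e1.natAbs * (v2 - v1 / e1 * e2).natAbs ≤ e1.natAbs * (v1 % e1).natAbs := by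
    rw [h6]
    exact Nat.mul_le_mul_right _ h
  have h8 : 0 < e1.natAbs := Int.natAbs_pos.mpr h1
  exact (Nat.le_of_mul_le_mul_left h7 h8).trans_lt h3'

theorem on_line (w : ℕ) (t : ℤ) (e : ℤ × ℤ) (he0 : e ≠ 0) (he : (w : ℤ) ∣ e.1 - t * e.2)
    (hmin : ∀ f : ℤ × ℤ, f ≠ 0 → (w : ℤ) ∣ f.1 - t * f.2 → nr e ≤ nr f)
    (v : ℤ × ℤ) (hv : (w : ℤ) ∣ v.1 - t * v.2) (hp : e.1 * v.2 = e.2 * v.1) :
    ∃ c : ℤ, v.1 = c * e.1 ∧ v.2 = c * e.2 := by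
  have fin : ∀ c r1 r2 : ℤ, v.1 = c * e.1 + r1 → v.2 = c * e.2 + r2 → nr (r1, r2) < nr e →
      v.1 = c * e.1 ∧ v.2 = c * e.2 := by
    intro c r1 r2 h1 h2 h3
    have h4 : (r1, r2) = ((0, 0) : ℤ × ℤ) := by
      by_contra hne
      have h5 : (w : ℤ) ∣ r1 - t * r2 := by
        have h6 : r1 - t * r2 = (v.1 - t * v.2) - c * (e.1 - t * e.2) := by
          rw [h1, h2]
          ring
        rw [h6]
        exact dvd_sub hv (Dvd.dvd.mul_left he c)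
      exact absurd (hmin (r1, r2) hne h5) (not_le.mpr h3)
    have h5 : r1 = 0 := congrArg Prod.fst h4
    have h6 : r2 = 0 := congrArg Prod.snd h4
    rw [h5] at h1
    rw [h6] at h2
    exact ⟨by linarith, by linarith⟩
  rcases le_total e.2.natAbs e.1.natAbs with h | h
  · have h1 : e.1 ≠ 0 := by
      intro h1
      apply he0
      exact Prod.ext h1 (by rw [h1] at h; simpa using h)
    obtain ⟨c, r1, r2, h2, h3, h4, h5⟩ := core e.1 e.2 v.1 v.2 h h1 hp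
    refine ⟨c, fin c r1 r2 h2 h3 ?_⟩
    unfold nr
    simp only
    omega
  · have h1 : e.2 ≠ 0 := by
      intro h1
      apply he0
      exact Prod.ext (by rw [h1] at h; simpa using h) h1
    obtain ⟨c, r2, r1, h2, h3, h4, h5⟩ := core e.2 e.1 v.2 v.1 h h1 hp.symm
    refine ⟨c, fin c r1 r2 h3 h2 ?_⟩
    unfold nr
    simp only
    omega

theorem box_finite (L : ℕ) (P : ℤ → Prop) : {c : ℤ | |c| ≤ (L : ℤ) ∧ P c}.Finite := by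
  refine (Set.finite_Icc (-(L : ℤ)) L).subset ?_
  rintro c ⟨hc, -⟩
  exact abs_le.mp hc

theorem box_ncard (L : ℕ) (P : ℤ → Prop) : {c : ℤ | |c| ≤ (L : ℤ) ∧ P c}.ncard ≤ 2 * L + 1 := by
  have h1 : {c : ℤ | |c| ≤ (L : ℤ) ∧ P c} ⊆ Set.Icc (-(L : ℤ)) L := by
    rintro c ⟨hc, -⟩
    exact abs_le.mp hc
  refine (Set.ncard_le_ncard h1 (Set.finite_Icc _ _)).trans ?_
  rw [Set.ncard_eq_toFinset_card', Set.toFinset_Icc, Int.card_Icc]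
  omega

theorem cnt (hpwr : RAD.PwrStmt) (hnct : RAD.NctStmt) (D B : ℕ) (hD : 1 ≤ D) :
    ∃ δ C : ℝ, 0 < δ ∧ δ < 1 ∧ 0 < C ∧ ∀ L : ℕ, 1 ≤ L → ∀ R : Polynomial ℤ, R.natDegree = D →
      (∀ i, |R.coeff i| ≤ (L : ℤ) ^ B) → (R.map (Int.castRingHom ℚ)).Separable →
      ∀ (b : ℤ) (k : ℕ), b ≠ 0 → 2 ≤ k → k ≤ B + D + 1 →
        ({c : ℤ | |c| ≤ (L : ℤ) ∧ ∃ q : ℕ, 1 ≤ q ∧ R.eval c = b * (q : ℤ) ^ k}.ncard : ℝ) ≤
          C * (L : ℝ) ^ (1 - δ) := by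
  obtain ⟨δ', hδ0, hδ1, C, hC, H₀, hH⟩ := hpwr D B (1 / 2) hD (by norm_num) (by norm_num)
  set δ : ℝ := min δ' (1 / 16) with hδ
  have hδle : δ ≤ δ' := min_le_left _ _
  have hδle' : δ ≤ 1 / 16 := min_le_right _ _
  have hδpos : 0 < δ := lt_min hδ0 (by norm_num)
  refine ⟨δ, C + 3 * D + 3 * H₀ + 1, hδpos, by linarith, by positivity, ?_⟩
  intro L hL R hR hco hsep b k hb hk2 hk
  have hL1 : (1 : ℝ) ≤ L := by exact_mod_cast hL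
  have hL0 : (0 : ℝ) < L := by linarith
  have hp1 : 1 ≤ (L : ℝ) ^ (1 - δ) := Real.one_le_rpow hL1 (by linarith)
  rcases lt_or_ge L H₀ with hlt | hge
  · have h1 := box_ncard L (fun c => ∃ q : ℕ, 1 ≤ q ∧ R.eval c = b * (q : ℤ) ^ k)
    have h2 : ({c : ℤ | |c| ≤ (L : ℤ) ∧ ∃ q : ℕ, 1 ≤ q ∧ R.eval c = b * (q : ℤ) ^ k}.ncard : ℝ) ≤
        2 * L + 1 := by exact_mod_cast h1
    have h3 : (L : ℝ) ≤ H₀ := by exact_mod_cast hlt.le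
    have h4 : (2 * L + 1 : ℝ) ≤ 3 * H₀ := by linarith
    calc _ ≤ (2 * L + 1 : ℝ) := h2
      _ ≤ 3 * H₀ := h4
      _ ≤ (C + 3 * D + 3 * H₀ + 1) * 1 := by
        have : (0 : ℝ) ≤ D := Nat.cast_nonneg _
        linarith
      _ ≤ _ := mul_le_mul_of_nonneg_left hp1 (by positivity)
  · set ρ : ℝ := (L : ℝ) ^ ((1 : ℝ) - 1 / 2 / 8) with hρ
    have hρ0 : 0 ≤ ρ := by positivity
    have hρ1 : 1 ≤ ρ := Real.one_le_rpow hL1 (by norm_num)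
    set S1 : Set ℤ := {c : ℤ | |c| ≤ (L : ℤ) ∧ c ≡ 0 [ZMOD ((1 : ℕ) : ℤ)] ∧ ¬ RAD.Near R ρ c ∧
      ∃ q : ℕ, 1 ≤ q ∧ R.eval c = b * (q : ℤ) ^ k} with hS1
    have h1 : (S1.ncard : ℝ) ≤ C * ((L : ℝ) / (1 : ℕ)) ^ (1 - δ') := by
      refine hH L hge R hR hco hsep b 0 1 k hb le_rfl ?_ hk2 hk
      rw [Nat.cast_one]
      exact Real.one_le_rpow hL1 (by norm_num)
    obtain ⟨h2, h3⟩ := hnct R D ρ hR hρ0
    have hsub : {c : ℤ | |c| ≤ (L : ℤ) ∧ ∃ q : ℕ, 1 ≤ q ∧ R.eval c = b * (q : ℤ) ^ k} ⊆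
        S1 ∪ {c : ℤ | RAD.Near R ρ c} := by
      rintro c ⟨hc1, hc2⟩
      by_cases hn : RAD.Near R ρ c
      · exact Or.inr hn
      · refine Or.inl ⟨hc1, ?_, hn, hc2⟩
        rw [Nat.cast_one]
        exact Int.modEq_one
    have hfin : (S1 ∪ {c : ℤ | RAD.Near R ρ c}).Finite :=
      (box_finite L _).union h2
    have h4 : {c : ℤ | |c| ≤ (L : ℤ) ∧ ∃ q : ℕ, 1 ≤ q ∧ R.eval c = b * (q : ℤ) ^ k}.ncard ≤
        S1.ncard + {c : ℤ | RAD.Near R ρ c}.ncard :=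
      (Set.ncard_le_ncard hsub hfin).trans (Set.ncard_union_le _ _)
    have h5 : ({c : ℤ | |c| ≤ (L : ℤ) ∧ ∃ q : ℕ, 1 ≤ q ∧ R.eval c = b * (q : ℤ) ^ k}.ncard : ℝ) ≤
        (S1.ncard : ℝ) + ({c : ℤ | RAD.Near R ρ c}.ncard : ℝ) := by exact_mod_cast h4
    have h6 : ((L : ℝ) / (1 : ℕ)) ^ (1 - δ') ≤ (L : ℝ) ^ (1 - δ) := by
      rw [Nat.cast_one, div_one]
      exact Real.rpow_le_rpow_of_exponent_le hL1 (by linarith)
    have h7 : ρ ≤ (L : ℝ) ^ (1 - δ) :=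
      Real.rpow_le_rpow_of_exponent_le hL1 (by norm_num; linarith)
    calc _ ≤ (S1.ncard : ℝ) + ({c : ℤ | RAD.Near R ρ c}.ncard : ℝ) := h5
      _ ≤ C * (L : ℝ) ^ (1 - δ) + D * (3 * (L : ℝ) ^ (1 - δ)) := by
        refine add_le_add (h1.trans (mul_le_mul_of_nonneg_left h6 hC.le)) (h3.trans ?_)
        exact mul_le_mul_of_nonneg_left (by linarith) (Nat.cast_nonneg _)
      _ = (C + 3 * D) * (L : ℝ) ^ (1 - δ) := by ring
      _ ≤ _ := mul_le_mul_of_nonneg_right (by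
          have : (0 : ℝ) ≤ H₀ := Nat.cast_nonneg _
          linarith) (by positivity)

end Pool.Agent.EVF.H25
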